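import Pool.Agent.T2h66.LL.Stm

/-!
# Task AV of the project `MP_5ae62c_nt` (board t66_tasks, helper66), by helper64
-/

set_option autoImplicit false

noncomputable section

open scoped Polynomial WithZero
open IsDedekindDomain WithZero

namespace Pool.Agent.T3h64.LL

open Pool.Agent.T2h66.LL

/-- elements of `A` are integral at all places `v` -/
lemma val_aF_le_one (a : A) (v : Pl) : Valued.v (aF a v) ≤ 1 := by
  have h : aF a v = ((algebraMap A K a : K) : Kv v) := rfl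
  rw [h, HeightOneSpectrum.valuedAdicCompletion_eq_valuation']
  exact HeightOneSpectrum.valuation_le_one v a

lemma mul_ap (x y : Af) (v : Pl) : (x * y) v = x v * y v := rfl
lemma add_ap (x y : Af) (v : Pl) : (x + y) v = x v + y v := rfl
lemma sub_ap (x y : Af) (v : Pl) : (x - y) v = x v - y v := rfl
lemma one_ap (v : Pl) : (1 : Af) v = 1 := rfl
lemma zero_ap (v : Pl) : (0 : Af) v = 0 := rfl
lemma aF_mul_ap (a b : A) (v : Pl) : aF (a * b) v = aF a v * aF b v := by
  rw [map_mul]; rfl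

lemma exists_den (hAQ : S_AQ) (h : GL (Fin 2) Af) : ∃ N : A, N ≠ 0 ∧ ∀ (v : Pl) (i j : Fin 2),
    Valued.v ((aF N * h i j) v) ≤ 1 ∧ Valued.v ((aF N * (h⁻¹ : GL (Fin 2) Af) i j) v) ≤ 1 := by
  choose N hN0 hN using hAQ.1
  refine ⟨(∏ i, ∏ j, N (h i j)) * ∏ i, ∏ j, N ((h⁻¹ : GL (Fin 2) Af) i j), ?_, fun v i j => ?_⟩
  · refine mul_ne_zero ?_ ?_ <;>
    exact Finset.prod_ne_zero_iff.2 fun i _ => Finset.prod_ne_zero_iff.2 fun j _ => hN0 _
  · have key : ∀ (f : Fin 2 → Fin 2 → A), ∃ c : A, ∏ i, ∏ j, f i j = c * f i j := by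
      intro f
      refine ⟨(∏ j' ∈ Finset.univ.erase j, f i j') * ∏ i' ∈ Finset.univ.erase i, ∏ j', f i' j', ?_⟩
      rw [← Finset.mul_prod_erase _ _ (Finset.mem_univ i),
        ← Finset.mul_prod_erase (Finset.univ : Finset (Fin 2)) (fun j => f i j)
          (Finset.mem_univ j)]
      ring
    have k2 : ∀ (c M : A) (x : Af), Valued.v ((aF M * x) v) ≤ 1 →
        Valued.v ((aF (c * M) * x) v) ≤ 1 := by
      intro c M x hx
      rw [mul_ap, aF_mul_ap, mul_assoc, map_mul, ← mul_ap]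
      exact mul_le_one' (val_aF_le_one c v) hx
    constructor
    · obtain ⟨c, hc⟩ := key fun i j => N (h i j)
      rw [hc, mul_comm _ (∏ i, ∏ j, N ((h⁻¹ : GL (Fin 2) Af) i j)), ← mul_assoc]
      exact k2 _ _ _ (hN _ v)
    · obtain ⟨c, hc⟩ := key fun i j => N ((h⁻¹ : GL (Fin 2) Af) i j)
      rw [hc, ← mul_assoc]
      exact k2 _ _ _ (hN _ v)

lemma exists_den_finset (hAQ : S_AQ) (s : Finset (GL (Fin 2) Af)) : ∃ N : A, N ≠ 0 ∧ ∀ h ∈ s,
    ∀ (v : Pl) (i j : Fin 2), Valued.v ((aF N * h i j) v) ≤ 1 ∧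
      Valued.v ((aF N * (h⁻¹ : GL (Fin 2) Af) i j) v) ≤ 1 := by
  classical
  choose N hN0 hN using exists_den hAQ
  refine ⟨∏ h ∈ s, N h, Finset.prod_ne_zero_iff.2 fun h _ => hN0 h, fun h hs v i j => ?_⟩
  have k2 : ∀ (c M : A) (x : Af), Valued.v ((aF M * x) v) ≤ 1 →
      Valued.v ((aF (M * c) * x) v) ≤ 1 := by
    intro c M x hx
    rw [mul_comm M c, mul_ap, aF_mul_ap, mul_assoc, map_mul, ← mul_ap]
    exact mul_le_one' (val_aF_le_one c v) hx
  rw [← Finset.mul_prod_erase s N hs]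
  exact ⟨k2 _ _ _ (hN h v i j).1, k2 _ _ _ (hN h v i j).2⟩

lemma mat_mul_ap (P Q : Matrix (Fin 2) (Fin 2) Af) (i j : Fin 2) (w : Pl) :
    (P * Q) i j w = ∑ k, P i k w * Q k j w := by
  rw [Matrix.mul_apply]
  exact map_sum (ev w) (fun k => P i k * Q k j) Finset.univ

/-- the congruence condition -/
def Cg (N : A) (g : GL (Fin 2) Af) : Prop := ∀ (v : Pl) (i j : Fin 2),
  Valued.v ((g i j - (1 : Matrix (Fin 2) (Fin 2) Af) i j) v) ≤ Valued.v (aF N v)

/-- `x ≡ y mod N` and `k` integral implies `k x ≡ k y` -/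
lemma cg_mul_left (N : A) (P x y : Matrix (Fin 2) (Fin 2) Af) (v : Pl)
    (hP : ∀ i j, Valued.v (P i j v) ≤ 1)
    (hxy : ∀ i j, Valued.v ((x i j - y i j) v) ≤ Valued.v (aF N v)) (i j : Fin 2) :
    Valued.v (((P * x) i j - (P * y) i j) v) ≤ Valued.v (aF N v) := by
  have h1 : (((P * x) i j - (P * y) i j) v) = ∑ k, P i k v * ((x k j - y k j) v) := by
    rw [sub_ap, mat_mul_ap, mat_mul_ap, ← Finset.sum_sub_distrib]
    refine Finset.sum_congr rfl fun k _ => ?_
    rw [sub_ap, mul_sub]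
  rw [h1]
  refine Valuation.map_sum_le _ fun k _ => ?_
  rw [map_mul]
  calc _ ≤ 1 * Valued.v (aF N v) := mul_le_mul' (hP i k) (hxy k j)
    _ = _ := one_mul _

/-- the congruence subgroup of level `N` in `Kf` -/
def UN' (N : A) : Subgroup (GL (Fin 2) Af) where
  carrier := {g | g ∈ Kf ∧ Cg N g}
  one_mem' := by
    refine ⟨Kf.one_mem, fun v i j => ?_⟩
    rw [Units.val_one, sub_self, zero_ap, map_zero]
    exact zero_le
  mul_mem' := by
    rintro g h ⟨hg, hg'⟩ ⟨hh, hh'⟩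
    refine ⟨Kf.mul_mem hg hh, fun v i j => ?_⟩
    have h1 := cg_mul_left N g h 1 v (fun i j => (hg v i j).1) (fun i j => hh' v i j) i j
    have h2 := hg' v i j
    have h3 : ((g * h : GL (Fin 2) Af) i j - (1 : Matrix (Fin 2) (Fin 2) Af) i j) v =
        (((g : Matrix (Fin 2) (Fin 2) Af) * (h : Matrix (Fin 2) (Fin 2) Af)) i j -
          ((g : Matrix (Fin 2) (Fin 2) Af) * (1 : Matrix (Fin 2) (Fin 2) Af)) i j) v +
          (g i j - (1 : Matrix (Fin 2) (Fin 2) Af) i j) v := by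
      rw [mul_one, ← add_ap, sub_add_sub_cancel, Units.val_mul]
    rw [h3]
    exact Valuation.map_add_le _ h1 h2
  inv_mem' := by
    rintro g ⟨hg, hg'⟩
    refine ⟨Kf.inv_mem hg, fun v i j => ?_⟩
    have h1 := cg_mul_left N (g⁻¹ : GL (Fin 2) Af) g 1 v (fun i j => (hg v i j).2)
      (fun i j => hg' v i j) i j
    rw [mul_one, ← Units.val_mul, inv_mul_cancel, Units.val_one, sub_ap,
      Valuation.map_sub_swap, ← sub_ap] at h1
    exact h1

lemma finite_quot (N : A) (hN : N ≠ 0) : Finite (A ⧸ Ideal.span {N}) := by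
  have : Module.Finite (ZMod 2) (AdjoinRoot N) := (AdjoinRoot.powerBasis hN).finite
  exact (Module.finite_of_finite (ZMod 2) : Finite (AdjoinRoot N))

lemma finite_index (hAP : S_AP) (N : A) (hN : N ≠ 0) :
    Finite (Kf ⧸ (UN' N).subgroupOf Kf) := by
  have hf := finite_quot N hN
  have hk : ∀ (k : Kf) (i j : Fin 2), ∃ a : A, ∀ v : Pl,
      Valued.v (((k : GL (Fin 2) Af) i j - aF a) v) ≤ Valued.v (aF N v) := fun k i j =>
    hAP _ N hN fun v => (k.2 v i j).1
  choose a ha using hk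
  have hinj : Function.Injective (fun (q : Kf ⧸ (UN' N).subgroupOf Kf) (i j : Fin 2) =>
      (Ideal.Quotient.mk (Ideal.span {N}) (a q.out i j))) := by
    intro q q' hqq
    rw [← q.out_eq, ← q'.out_eq]
    refine QuotientGroup.eq.2 ?_
    rw [Subgroup.mem_subgroupOf]
    have hc : ∀ (v : Pl) (i j : Fin 2),
        Valued.v ((((q'.out : Kf) : GL (Fin 2) Af) i j - ((q.out : Kf) : GL (Fin 2) Af) i j) v) ≤
          Valued.v (aF N v) := by
      intro v i j
      have h1 := congrFun (congrFun hqq i) j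
      rw [Ideal.Quotient.eq, Ideal.mem_span_singleton] at h1
      obtain ⟨b, hb⟩ := h1
      have h2 : Valued.v ((aF (a q.out i j) - aF (a q'.out i j)) v) ≤ Valued.v (aF N v) := by
        rw [← map_sub, hb, aF_mul_ap, map_mul]
        calc _ ≤ Valued.v (aF N v) * 1 := mul_le_mul' le_rfl (val_aF_le_one b v)
          _ = _ := mul_one _
      have h3 : (((q'.out : Kf) : GL (Fin 2) Af) i j - ((q.out : Kf) : GL (Fin 2) Af) i j) v =
          (((q'.out : Kf) : GL (Fin 2) Af) i j - aF (a q'.out i j)) v -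
          (((q.out : Kf) : GL (Fin 2) Af) i j - aF (a q.out i j)) v -
          (aF (a q.out i j) - aF (a q'.out i j)) v := by
        simp only [sub_ap]; ring
      rw [h3]
      exact Valuation.map_sub_le _ (Valuation.map_sub_le _ (ha _ i j v) (ha _ i j v)) h2
    refine ⟨Kf.mul_mem (Kf.inv_mem q.out.2) q'.out.2, fun v i j => ?_⟩
    have h4 := cg_mul_left N ((((q.out : Kf) : GL (Fin 2) Af)⁻¹ : GL (Fin 2) Af) :
      Matrix (Fin 2) (Fin 2) Af) ((q'.out : Kf) : GL (Fin 2) Af) ((q.out : Kf) : GL (Fin 2) Af) v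
      (fun i j => (q.out.2 v i j).2) (hc v) i j
    rw [← Units.val_mul, ← Units.val_mul, inv_mul_cancel, Units.val_one] at h4
    exact h4
  exact Finite.of_injective _ hinj

/-- conjugation by `h` maps the congruence subgroup of a level divisible by the square of the
denominator of `h` to integral matrices -/
lemma conj_int (h : GL (Fin 2) Af) (N : A)
    (hh : ∀ (v : Pl) (i j : Fin 2), Valued.v ((aF N * h i j) v) ≤ 1 ∧
      Valued.v ((aF N * (h⁻¹ : GL (Fin 2) Af) i j) v) ≤ 1)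
    (u : GL (Fin 2) Af) (hu : Cg (N * N) u) (v : Pl) (i j : Fin 2) :
    Valued.v (((h⁻¹ * u * h : GL (Fin 2) Af) i j) v) ≤ 1 := by
  have h1 : ((h⁻¹ * u * h : GL (Fin 2) Af) : Matrix (Fin 2) (Fin 2) Af) =
      1 + ((h⁻¹ : GL (Fin 2) Af) : Matrix (Fin 2) (Fin 2) Af) *
        ((u : Matrix (Fin 2) (Fin 2) Af) - 1) * (h : Matrix (Fin 2) (Fin 2) Af) := by
    rw [mul_sub, sub_mul, mul_one, ← Units.val_mul, ← Units.val_mul, ← Units.val_mul,
      inv_mul_cancel, Units.val_one]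
    abel
  rw [h1]
  have h2 : ((1 + ((h⁻¹ : GL (Fin 2) Af) : Matrix (Fin 2) (Fin 2) Af) *
        ((u : Matrix (Fin 2) (Fin 2) Af) - 1) * (h : Matrix (Fin 2) (Fin 2) Af)) i j) v =
      (1 : Matrix (Fin 2) (Fin 2) Af) i j v + ∑ b, (∑ a, (h⁻¹ : GL (Fin 2) Af) i a v *
        (u a b - (1 : Matrix (Fin 2) (Fin 2) Af) a b) v) * h b j v := by
    rw [Matrix.add_apply, add_ap, mat_mul_ap]
    refine congrArg₂ _ rfl (Finset.sum_congr rfl fun b _ => ?_)
    rw [mat_mul_ap]
    rfl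
  rw [h2]
  refine Valuation.map_add_le _ ((Kf.one_mem v i j).1) ?_
  refine Valuation.map_sum_le _ fun b _ => ?_
  rw [Finset.sum_mul]
  refine Valuation.map_sum_le _ fun a _ => ?_
  rw [map_mul, map_mul]
  have h3 := (hh v i a).2
  have h4 := (hh v b j).1
  have h5 := hu v a b
  rw [mul_ap, map_mul] at h3 h4
  rw [aF_mul_ap, map_mul] at h5
  calc _ ≤ Valued.v ((h⁻¹ : GL (Fin 2) Af) i a v) * (Valued.v (aF N v) * Valued.v (aF N v)) *
        Valued.v (h b j v) := mul_le_mul' (mul_le_mul' le_rfl h5) le_rfl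
    _ = (Valued.v (aF N v) * Valued.v ((h⁻¹ : GL (Fin 2) Af) i a v)) *
        (Valued.v (aF N v) * Valued.v (h b j v)) := by
          simp only [mul_comm, mul_left_comm]
    _ ≤ 1 := mul_le_one' h3 h4

lemma conj_mem (h : GL (Fin 2) Af) (N : A)
    (hh : ∀ (v : Pl) (i j : Fin 2), Valued.v ((aF N * h i j) v) ≤ 1 ∧
      Valued.v ((aF N * (h⁻¹ : GL (Fin 2) Af) i j) v) ≤ 1)
    (u : GL (Fin 2) Af) (hu : u ∈ UN' (N * N)) : h⁻¹ * u * h ∈ Kf := by
  intro v i j
  refine ⟨conj_int h N hh u hu.2 v i j, ?_⟩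
  have h1 : (h⁻¹ * u * h)⁻¹ = h⁻¹ * u⁻¹ * h := by group
  rw [h1]
  exact conj_int h N hh u⁻¹ ((UN' (N * N)).inv_mem hu).2 v i j

theorem t_AV : S_UN → S_TI → S_AP → S_AQ → S_AV := by
  intro hUN _ hAP hAQ s
  obtain ⟨N, hN0, hN⟩ := exists_den_finset hAQ s
  have hfin := finite_index hAP (N * N) (mul_ne_zero hN0 hN0)
  set Q := Kf ⧸ (UN' (N * N)).subgroupOf Kf with hQ
  have : Fintype Q := Fintype.ofFinite Q
  let e : Fin (Fintype.card Q) ≃ Q := (Fintype.equivFin Q).symm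
  refine ⟨Fintype.card Q, fun j => ((e j).out : Kf), Fintype.card_pos, fun j => ((e j).out).2, ?_⟩
  intro E hE hTi h hs
  -- the averaged function
  set T : GA → ℂ := fun g => ∑ q : Q, E (g * (((q.out : Kf) : GL (Fin 2) Af) * h, 1)) with hT
  have hTe : ∀ g : GA, ∑ j, E (g * ((((e j).out : Kf) : GL (Fin 2) Af) * h, 1)) = T g := fun g =>
    Equiv.sum_comp e fun q : Q => E (g * (((q.out : Kf) : GL (Fin 2) Af) * h, 1))
  have hEr : ∀ kf ∈ Kf, ∀ g : GA, E (g * (kf, 1)) = E g := by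
    intro kf hkf g
    have h1 := hE.right kf hkf 1 1 (Subgroup.one_mem _) g
    have h2 : (sc (1 : Kiˣ) : GL (Fin 2) Ki) * 1 = 1 := by
      rw [mul_one]
      ext i j
      fin_cases i <;> fin_cases j <;> simp [sc, bor]
    rwa [h2] at h1
  have hTL : LevelOne T := by
    refine ⟨fun γ g => ?_, fun kf hkf z k hk g => ?_⟩
    · simp only [hT]
      refine Finset.sum_congr rfl fun q _ => ?_
      rw [mul_assoc, hE.left]
    · simp only [hT]
      let k0 : Kf := ⟨kf, hkf⟩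
      have h1 : ∀ q : Q, E (g * (kf, sc z * k) * (((q.out : Kf) : GL (Fin 2) Af) * h, 1)) =
          E (g * ((((k0 • q).out : Kf) : GL (Fin 2) Af) * h, 1)) := by
        intro q
        have h2 : k0 • q = QuotientGroup.mk (k0 * q.out) := by
          conv_lhs => rw [← q.out_eq]
          rfl
        have h3 : ((k0 • q).out)⁻¹ * (k0 * q.out) ∈ (UN' (N * N)).subgroupOf Kf := by
          rw [← QuotientGroup.eq, ← h2]
          exact (k0 • q).out_eq
        rw [Subgroup.mem_subgroupOf] at h3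
        have h4 := conj_mem h N (hN h hs) _ h3
        have h5 : g * (kf, sc z * k) * (((q.out : Kf) : GL (Fin 2) Af) * h, 1) =
            g * ((((k0 • q).out : Kf) : GL (Fin 2) Af) * h, 1) *
              (h⁻¹ * ((((k0 • q).out)⁻¹ * (k0 * q.out) : Kf) : GL (Fin 2) Af) * h, 1) *
              (1, sc z * k) := by
          refine Prod.ext ?_ ?_
          · simp only [Prod.fst_mul, Subgroup.coe_mul, InvMemClass.coe_inv, k0]
            group
          · simp only [Prod.snd_mul, mul_one]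
        rw [h5, hE.right 1 Kf.one_mem z k hk, hEr _ h4]
      rw [Finset.sum_congr rfl fun q _ => h1 q]
      exact Equiv.sum_comp (MulAction.toPerm k0)
        fun q : Q => E (g * (((q.out : Kf) : GL (Fin 2) Af) * h, 1))
  have hcomm : ∀ (x : GL (Fin 2) Ki) (y : GL (Fin 2) Af) (g : GA),
      g * atI x * (y, 1) = g * (y, 1) * atI x := by
    intro x y g
    refine Prod.ext ?_ ?_
    · change g.1 * 1 * y = g.1 * y * 1
      group
    · change g.2 * x * 1 = g.2 * 1 * x
      group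
  have hTT : ∀ g, Ti T g = 3 * T g + 3 * (Fintype.card Q : ℂ) := by
    intro g
    have h1 : Ti T g = ∑ q : Q, Ti E (g * (((q.out : Kf) : GL (Fin 2) Af) * h, 1)) := by
      simp only [Ti, hT, hcomm, Finset.sum_add_distrib]
    rw [h1, Finset.sum_congr rfl fun q _ => hTi _, Finset.sum_add_distrib, ← Finset.mul_sum]
    simp [hT, mul_comm]
  have hD : LevelOne (fun g => T g - (Fintype.card Q : ℂ) * E g) := by
    refine ⟨fun γ g => ?_, fun kf hkf z k hk g => ?_⟩
    · simp only [hTL.left, hE.left]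
    · simp only [hTL.right kf hkf z k hk, hE.right kf hkf z k hk]
  have hDT : ∀ g, Ti (fun g => T g - (Fintype.card Q : ℂ) * E g) g =
      3 * (fun g => T g - (Fintype.card Q : ℂ) * E g) g := by
    intro g
    have h1 : Ti (fun g => T g - (Fintype.card Q : ℂ) * E g) g =
        Ti T g - (Fintype.card Q : ℂ) * Ti E g := by
      simp only [Ti]; ring
    rw [h1, hTT, hTi]
    ring
  refine ⟨T 1 - (Fintype.card Q : ℂ) * E 1, fun g => ?_⟩
  have h1 : T g - (Fintype.card Q : ℂ) * E g = T 1 - (Fintype.card Q : ℂ) * E 1 :=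
    hUN _ hD hDT g
  rw [hTe, ← h1]
  ring

end Pool.Agent.T3h64.LL
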