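import Pool.Agent.T2h66.LL.Stm

/-!
# Task P2 of the project `MP_5ae62c_nt` (board t66_tasks, helper66), by helper64
-/

set_option autoImplicit false

noncomputable section

open scoped Polynomial WithZero
open IsDedekindDomain WithZero

namespace Pool.Agent.T3h64.LL

open Pool.Agent.T2h66.LL

/-- harmonic vectors are preserved by maps which commute with the group -/
lemma harm_map {F : Type} [Field F] {V W : Type} [AddCommGroup V] [Module ℂ V]
    [AddCommGroup W] [Module ℂ W] {v : Valuation F ℤᵐ⁰} {ϖ : Fˣ}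
    {ρ : Representation ℂ (GL (Fin 2) F) V} {σ : Representation ℂ (GL (Fin 2) F) W}
    (T : V →ₗ[ℂ] W) (hT : ∀ g x, T (ρ g x) = σ g (T x)) {x : V} (hx : Harm v ϖ ρ x) :
    Harm v ϖ σ (T x) where
  iw g hg := by rw [← hT, hx.iw g hg]
  sc z := by rw [← hT, hx.sc z]
  al := by rw [← hT, hx.al, map_neg]
  sum := by rw [← hT, ← hT, ← map_add, ← map_add, hx.sum, map_zero]

lemma RR_apply {G : Type} [Group G] (g : G) (φ : G → ℂ) (x : G) : RR G g φ x = φ (x * g) := rfl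

lemma RR_comm (h : GL (Fin 2) Af) (g : GL (Fin 2) Ki) (φ : GA → ℂ) :
    RR GA (h, 1) (((RR GA).comp atI) g φ) = ((RR GA).comp atI) g (RR GA (h, 1) φ) := by
  funext x
  change φ (x * (h, 1) * (1, g)) = φ (x * (1, g) * (h, 1))
  have : ((h, 1) : GA) * (1, g) = (1, g) * (h, 1) := by
    refine Prod.ext ?_ ?_
    · change h * 1 = 1 * h
      rw [mul_one, one_mul]
    · change 1 * g = g * 1
      rw [mul_one, one_mul]
  rw [mul_assoc, mul_assoc, this]

lemma RR_split (g : GA) (φ : GA → ℂ) :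
    RR GA g φ = ((RR GA).comp atI) g.2 (RR GA (g.1, 1) φ) := by
  funext x
  change φ (x * g) = φ (x * (1, g.2) * (g.1, 1))
  have : ((1, g.2) : GA) * (g.1, 1) = g := by
    refine Prod.ext ?_ ?_
    · change 1 * g.1 = g.1
      rw [one_mul]
    · change g.2 * 1 = g.2
      rw [mul_one]
  rw [mul_assoc, this]

lemma nU_add {R : Type} [CommRing R] (x y : R) : (nU (x + y) : GL (Fin 2) R) = nU x * nU y := by
  ext i j
  rw [Units.val_mul, Matrix.mul_apply, Fin.sum_univ_two]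
  fin_cases i <;> fin_cases j <;> simp [nU, add_comm]

lemma nA_add (x y : Af × Ki) : nA (x + y) = nA x * nA y :=
  Prod.ext (nU_add x.1 y.1) (nU_add x.2 y.2)

lemma nA_zero : nA 0 = 1 := by
  have h := nA_add 0 0
  rw [add_zero] at h
  exact (mul_eq_left.1 h.symm)

lemma nA_neg (x : Af × Ki) : nA (-x) = (nA x)⁻¹ := by
  rw [eq_inv_iff_mul_eq_one, ← nA_add, neg_add_cancel, nA_zero]

lemma nA_K (c : K) : nA (algebraMap K Af c, algebraMap K Ki c) = diagK (nU c) := by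
  refine Prod.ext ?_ ?_
  · change nU (algebraMap K Af c) = Matrix.GeneralLinearGroup.map (algebraMap K Af) (nU c)
    ext i j : 2
    rw [Matrix.GeneralLinearGroup.map_apply]
    fin_cases i <;> fin_cases j <;> simp [nU]
  · change nU (algebraMap K Ki c) = Matrix.GeneralLinearGroup.map (algebraMap K Ki) (nU c)
    ext i j : 2
    rw [Matrix.GeneralLinearGroup.map_apply]
    fin_cases i <;> fin_cases j <;> simp [nU]

/-- the smooth vectors -/
def Sm (φ : GA → ℂ) : Prop :=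
  ∃ U : Subgroup GA, IsOpen (U : Set GA) ∧ ∀ u ∈ U, ∀ g, φ (g * u) = φ g

/-- the constant term is zero -/
def Cu (φ : GA → ℂ) : Prop := ∀ g : GA, ∃ U₀ : AddSubgroup (Af × Ki), IsOpen (U₀ : Set (Af × Ki)) ∧
    ∀ U : AddSubgroup (Af × Ki), IsOpen (U : Set (Af × Ki)) → U ≤ U₀ →
      Finite ((Af × Ki) ⧸ (KK ⊔ U)) ∧
      (∀ x, ∀ u ∈ U, φ (nA (x + u) * g) = φ (nA x * g)) ∧
      ∑ᶠ q : (Af × Ki) ⧸ (KK ⊔ U), φ (nA q.out * g) = 0

lemma sm_add {φ ψ : GA → ℂ} (h1 : Sm φ) (h2 : Sm ψ) : Sm (φ + ψ) := by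
  obtain ⟨U, hU, h⟩ := h1
  obtain ⟨U', hU', h'⟩ := h2
  refine ⟨U ⊓ U', hU.inter hU', fun u hu g => ?_⟩
  rw [Pi.add_apply, Pi.add_apply, h u hu.1, h' u hu.2]

lemma sm_smul {φ : GA → ℂ} (c : ℂ) (h1 : Sm φ) : Sm (c • φ) := by
  obtain ⟨U, hU, h⟩ := h1
  refine ⟨U, hU, fun u hu g => ?_⟩
  rw [Pi.smul_apply, Pi.smul_apply, h u hu]

lemma sm_RR {φ : GA → ℂ} (h : GA) (h1 : Sm φ) : Sm (RR GA h φ) := by
  obtain ⟨U, hU, hφ⟩ := h1
  refine ⟨U.comap (MulAut.conj h⁻¹).toMonoidHom, ?_, fun u hu g => ?_⟩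
  · have he : ((U.comap (MulAut.conj h⁻¹).toMonoidHom : Subgroup GA) : Set GA) =
        (fun x => h⁻¹ * x * h) ⁻¹' (U : Set GA) := by
      ext x
      simp
    rw [he]
    exact hU.preimage ((continuous_const.mul continuous_id).mul continuous_const)
  · have h2 : h⁻¹ * u * h ∈ U := by
      have := Subgroup.mem_comap.1 hu
      simpa [MulAut.conj_apply] using this
    rw [RR_apply, RR_apply]
    have h3 : g * u * h = g * h * (h⁻¹ * u * h) := by group
    rw [h3, hφ _ h2]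

lemma cu_add {φ ψ : GA → ℂ} (h1 : Cu φ) (h2 : Cu ψ) : Cu (φ + ψ) := by
  intro g
  obtain ⟨U, hU, h⟩ := h1 g
  obtain ⟨U', hU', h'⟩ := h2 g
  refine ⟨U ⊓ U', hU.inter hU', fun V hV hVU => ?_⟩
  obtain ⟨a1, a2, a3⟩ := h V hV (hVU.trans inf_le_left)
  obtain ⟨b1, b2, b3⟩ := h' V hV (hVU.trans inf_le_right)
  refine ⟨a1, fun x u hu => ?_, ?_⟩
  · rw [Pi.add_apply, Pi.add_apply, a2 x u hu, b2 x u hu]
  · simp only [Pi.add_apply]
    rw [finsum_add_distrib (Set.toFinite _) (Set.toFinite _), a3, b3, add_zero]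

lemma cu_smul {φ : GA → ℂ} (c : ℂ) (h1 : Cu φ) : Cu (c • φ) := by
  intro g
  obtain ⟨U, hU, h⟩ := h1 g
  refine ⟨U, hU, fun V hV hVU => ?_⟩
  obtain ⟨a1, a2, a3⟩ := h V hV hVU
  refine ⟨a1, fun x u hu => ?_, ?_⟩
  · rw [Pi.smul_apply, Pi.smul_apply, a2 x u hu]
  · simp only [Pi.smul_apply, smul_eq_mul]
    rw [← mul_finsum' _ c (Set.toFinite _), a3, mul_zero]

lemma cu_RR {φ : GA → ℂ} (h : GA) (h1 : Cu φ) : Cu (RR GA h φ) := by
  intro g
  obtain ⟨U, hU, hφ⟩ := h1 (g * h)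
  refine ⟨U, hU, fun V hV hVU => ?_⟩
  obtain ⟨a1, a2, a3⟩ := hφ V hV hVU
  refine ⟨a1, fun x u hu => ?_, ?_⟩
  · rw [RR_apply, RR_apply, mul_assoc, mul_assoc, a2 x u hu]
  · simp only [RR_apply, mul_assoc]
    exact a3

/-- the constant term of `f` -/
lemma cu_f (hFQ : S_FQ) (hTP5 : Continuous nA) {f : GA → ℂ}
    (hleft : ∀ (γ : GL (Fin 2) K) (g : GA), f (diagK γ * g) = f g) (hsm : Sm f)
    (hy : ∀ g : GA, ∃ y : Af × Ki, ∀ x : Af × Ki, f (nA (x + y) * g) = -f (nA x * g)) : Cu f := by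
  intro g
  obtain ⟨U0, hU0, hf⟩ := hsm
  let W : AddSubgroup (Af × Ki) :=
    { carrier := {u | g⁻¹ * nA u * g ∈ U0}
      zero_mem' := by
        change g⁻¹ * nA 0 * g ∈ U0
        rw [nA_zero, mul_one, inv_mul_cancel]
        exact U0.one_mem
      add_mem' := by
        intro a b ha hb
        change g⁻¹ * nA (a + b) * g ∈ U0
        have : g⁻¹ * nA (a + b) * g = (g⁻¹ * nA a * g) * (g⁻¹ * nA b * g) := by
          rw [nA_add]; group
        rw [this]
        exact U0.mul_mem ha hb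
      neg_mem' := by
        intro a ha
        change g⁻¹ * nA (-a) * g ∈ U0
        have : g⁻¹ * nA (-a) * g = (g⁻¹ * nA a * g)⁻¹ := by
          rw [nA_neg]; group
        rw [this]
        exact U0.inv_mem ha }
  have hW : IsOpen (W : Set (Af × Ki)) :=
    hU0.preimage ((continuous_const.mul hTP5).mul continuous_const)
  have hinv : ∀ x, ∀ u ∈ W, f (nA (x + u) * g) = f (nA x * g) := by
    intro x u hu
    have h1 : nA (x + u) * g = nA x * g * (g⁻¹ * nA u * g) := by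
      rw [nA_add]; group
    rw [h1, hf _ hu]
  refine ⟨W, hW, fun V hV hVW => ⟨hFQ V hV, fun x u hu => hinv x u (hVW hu), ?_⟩⟩
  have hfin := hFQ V hV
  obtain ⟨y, hy⟩ := hy g
  have hrep : ∀ x z : Af × Ki, (QuotientAddGroup.mk x : (Af × Ki) ⧸ (KK ⊔ V)) =
      QuotientAddGroup.mk z → f (nA x * g) = f (nA z * g) := by
    intro x z hxz
    rw [QuotientAddGroup.eq] at hxz
    obtain ⟨c, hc, u, hu, hcu⟩ := AddSubgroup.mem_sup.1 hxz
    obtain ⟨c, rfl⟩ := hc
    have h1 : z = (algebraMap K Af c, algebraMap K Ki c) + x + u := by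
      have h2 : z = x + (-x + z) := by abel
      rw [h2, ← hcu]
      change x + ((algebraMap K Af c, algebraMap K Ki c) + u) = _
      abel
    rw [h1, hinv _ u (hVW hu), nA_add, nA_K, mul_assoc, hleft]
  have hF : ∀ q : (Af × Ki) ⧸ (KK ⊔ V), f (nA (q + QuotientAddGroup.mk y).out * g) =
      -f (nA q.out * g) := by
    intro q
    rw [← hy q.out]
    apply hrep
    have h1 : ∀ w : (Af × Ki) ⧸ (KK ⊔ V), (QuotientAddGroup.mk w.out : (Af × Ki) ⧸ (KK ⊔ V)) = w :=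
      fun w => w.out_eq
    rw [h1, QuotientAddGroup.mk_add, h1]
  have hs : ∑ᶠ q : (Af × Ki) ⧸ (KK ⊔ V), f (nA q.out * g) =
      -∑ᶠ q : (Af × Ki) ⧸ (KK ⊔ V), f (nA q.out * g) := by
    conv_lhs => rw [← finsum_comp_equiv (Equiv.addRight
      (QuotientAddGroup.mk y : (Af × Ki) ⧸ (KK ⊔ V)))]
    rw [← finsum_neg_distrib]
    exact finsum_congr fun q => hF q
  exact self_eq_neg.1 hs

/-- the linear span of the translates of harmonic functions -/
def Sp (s : Finset (GA → ℂ)) : Submodule ℂ (GA → ℂ) :=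
  Submodule.span ℂ {z | ∃ x ∈ s, ∃ g : GL (Fin 2) Ki, z = ((RR GA).comp atI) g x}

lemma Sp_mono {s t : Finset (GA → ℂ)} (h : s ⊆ t) : Sp s ≤ Sp t :=
  Submodule.span_mono fun _ ⟨x, hx, g, hz⟩ => ⟨x, h hx, g, hz⟩

lemma Sp_stable (s : Finset (GA → ℂ)) (h : GL (Fin 2) Ki) (x : GA → ℂ) (hx : x ∈ Sp s) :
    ((RR GA).comp atI) h x ∈ Sp s := by
  have h1 : Sp s ≤ (Sp s).comap (((RR GA).comp atI) h) := by
    refine Submodule.span_le.2 ?_
    rintro _ ⟨y, hy, g, rfl⟩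
    refine Submodule.subset_span ⟨y, hy, h * g, ?_⟩
    rw [map_mul]
    rfl
  exact h1 hx

lemma adm_of_mem_Sp (hLD : S_LD) (hTP2 : ∀ U : Subgroup (GL (Fin 2) Ki),
      IsOpen (U : Set (GL (Fin 2) Ki)) → ∃ r : ℕ, Gr Valued.v r ⊆ (U : Set (GL (Fin 2) Ki)))
    (hIF : S_IF) (s : Finset (GA → ℂ)) (hs : ∀ x ∈ s, Harm Valued.v pI ((RR GA).comp atI) x)
    (φ : GA → ℂ) (hφ : φ ∈ Sp s) : AdmissibleSpan ((RR GA).comp atI) φ := by
  intro U hU
  obtain ⟨r, hr⟩ := hTP2 U hU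
  obtain ⟨E, hE, hE'⟩ := hLD Ki Valued.v pI hIF.1 hIF.2.1 (GA → ℂ) ((RR GA).comp atI) s hs r
  refine ⟨E, hE, fun y hy hyU => hE' y ?_ fun u hu => hyU u (hr hu)⟩
  have h1 : Submodule.span ℂ (Set.range fun h => ((RR GA).comp atI) h φ) ≤ Sp s := by
    refine Submodule.span_le.2 ?_
    rintro _ ⟨h, rfl⟩
    exact Sp_stable s h φ hφ
  exact h1 hy

theorem t_P2 : S_CF → S_ZO → S_LA → S_LP → S_LD → S_FQ → S_TP → S_IF → S_P2 := by
  intro hCF hZO _ _ hLD hFQ hTP hIF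
  classical
  obtain ⟨f, hf1, hleft, ⟨N, hN0, hN⟩, hharm, hy⟩ := hCF
  obtain ⟨⟨U2, hU2, hU2'⟩, hTP2, hTP3, -, hTP5⟩ := hTP
  obtain ⟨U1, hU1, hU1'⟩ := hTP3 N hN0
  have hf0 : f ≠ 0 := fun h => hf1 (by rw [h]; rfl)
  -- `f` is smooth
  have hsm : Sm f := by
    refine ⟨U1.prod U2, ?_, ?_⟩
    · rw [Subgroup.coe_prod]
      exact hU1.prod hU2
    · rintro ⟨u1, u2⟩ ⟨h1, h2⟩ g
      have h3 : g * (u1, u2) = g * (1, u2) * (u1, 1) := by
        rw [mul_assoc]
        congr 1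
        exact Prod.ext (one_mul u1).symm (mul_one u2).symm
      rw [h3, hN u1 (hU1' u1 h1).1 (hU1' u1 h1).2]
      have h4 : u2 ∈ Iw (Valued.v : Valuation Ki ℤᵐ⁰) := by
        have h5 := hU2' h2
        refine ⟨h5.1, ?_⟩
        have h6 := h5.2 1 0
        rw [Matrix.one_apply_ne (by decide), sub_zero] at h6
        refine h6.trans_lt ?_
        rw [← exp_zero, exp_lt_exp]
        simp
      exact congrFun (hharm.iw u2 h4) g
  have hcu : Cu f := cu_f hFQ hTP5 hleft hsm hy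
  -- the cyclic representation
  let W : Subrepresentation (RR GA) :=
    { toSubmodule := Submodule.span ℂ (Set.range fun g => RR GA g f)
      apply_mem_toSubmodule := by
        intro g φ hφ
        have h1 : Submodule.span ℂ (Set.range fun g => RR GA g f) ≤
            (Submodule.span ℂ (Set.range fun g => RR GA g f)).comap (RR GA g) := by
          refine Submodule.span_le.2 ?_
          rintro _ ⟨h, rfl⟩
          refine Submodule.subset_span ⟨g * h, ?_⟩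
          change RR GA (g * h) f = _
          rw [map_mul]
          rfl
        exact h1 hφ }
  have hWs : ∀ φ ∈ W.toSubmodule, (∀ (γ : GL (Fin 2) K) (g : GA), φ (diagK γ * g) = φ g) ∧
      Sm φ ∧ Cu φ ∧ ∃ s : Finset (GA → ℂ),
        (∀ x ∈ s, Harm Valued.v pI ((RR GA).comp atI) x) ∧ φ ∈ Sp s := by
    intro φ hφ
    refine Submodule.span_induction (p := fun φ _ =>
      (∀ (γ : GL (Fin 2) K) (g : GA), φ (diagK γ * g) = φ g) ∧
      Sm φ ∧ Cu φ ∧ ∃ s : Finset (GA → ℂ),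
        (∀ x ∈ s, Harm Valued.v pI ((RR GA).comp atI) x) ∧ φ ∈ Sp s) ?_ ?_ ?_ ?_ hφ
    · rintro _ ⟨h, rfl⟩
      refine ⟨fun γ g => ?_, sm_RR h hsm, cu_RR h hcu, {RR GA (h.1, 1) f}, ?_, ?_⟩
      · change RR GA h f (diagK γ * g) = RR GA h f g
        rw [RR_apply, RR_apply, mul_assoc, hleft]
      · intro x hx
        rw [Finset.mem_singleton] at hx
        rw [hx]
        exact harm_map (RR GA (h.1, 1)) (fun g x => RR_comm h.1 g x) hharm
      · refine Submodule.subset_span ⟨_, Finset.mem_singleton_self _, h.2, ?_⟩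
        exact RR_split h f
    · refine ⟨fun _ _ => rfl, ⟨⊤, isOpen_univ, fun _ _ _ => rfl⟩, ?_, ∅, ?_, ?_⟩
      · have h1 := cu_smul 0 hcu
        rwa [zero_smul] at h1
      · intro x hx
        simp at hx
      · exact Submodule.zero_mem _
    · rintro φ ψ _ _ ⟨a1, a2, a3, s, a4, a5⟩ ⟨b1, b2, b3, t, b4, b5⟩
      refine ⟨fun γ g => ?_, sm_add a2 b2, cu_add a3 b3, s ∪ t, ?_, ?_⟩
      · rw [Pi.add_apply, Pi.add_apply, a1, b1]
      · intro x hx
        rcases Finset.mem_union.1 hx with h | h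
        · exact a4 x h
        · exact b4 x h
      · exact Submodule.add_mem _ (Sp_mono Finset.subset_union_left a5)
          (Sp_mono Finset.subset_union_right b5)
    · rintro c φ _ ⟨a1, a2, a3, s, a4, a5⟩
      refine ⟨fun γ g => ?_, sm_smul c a2, cu_smul c a3, s, a4, Submodule.smul_mem _ c a5⟩
      rw [Pi.smul_apply, Pi.smul_apply, a1]
  have hcusp : ∀ φ ∈ W, IsCuspForm φ := by
    intro φ hφ
    obtain ⟨a1, a2, a3, s, a4, a5⟩ := hWs φ hφ
    exact ⟨⟨a1, a2, Or.inl (adm_of_mem_Sp hLD hTP2 hIF s a4 φ a5)⟩, a3⟩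
  -- the irreducible quotient
  have hmem : ∀ g, RR GA g f ∈ W.toSubmodule := fun g => Submodule.subset_span ⟨g, rfl⟩
  have hfW : f ∈ W.toSubmodule := by
    have := hmem 1
    rwa [map_one] at this
  let f' : W.toSubmodule := ⟨f, hfW⟩
  have hf'0 : f' ≠ 0 := fun h => hf0 (congrArg Subtype.val h)
  have hgen : Gen W.toRepresentation f' := by
    refine (Submodule.eq_top_iff'.2 fun w => ?_)
    have h1 : W.toSubmodule ≤ (Submodule.span ℂ (Set.range fun g =>
        W.toRepresentation g f')).map W.toSubmodule.subtype := by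
      refine Submodule.span_le.2 ?_
      rintro _ ⟨g, rfl⟩
      exact ⟨W.toRepresentation g f', Submodule.subset_span ⟨g, rfl⟩, rfl⟩
    obtain ⟨w', hw', hw''⟩ := h1 w.2
    have : w' = w := Subtype.ext hw''
    rwa [← this]
  obtain ⟨Nm, hNm, -, hirr⟩ := hZO GA W.toSubmodule W.toRepresentation f' hf'0 hgen
  let π : Irr GA :=
    { V := W.toSubmodule ⧸ Nm
      ρ := W.toRepresentation.quotient Nm hNm
      irreducible := hirr
      smooth := by
        intro x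
        obtain ⟨w, rfl⟩ := Submodule.mkQ_surjective Nm x
        obtain ⟨U, hU, hw⟩ := (hWs w.1 w.2).2.1
        refine ⟨U, hU, fun u hu => ?_⟩
        change Nm.mkQ (W.toRepresentation u w) = Nm.mkQ w
        congr 1
        exact Subtype.ext (funext fun g => hw u hu g) }
  refine ⟨π, ⟨W, hcusp, ⟨⟨Nm.mkQ, fun g => rfl⟩, Submodule.mkQ_surjective Nm⟩⟩, ?_⟩
  refine ⟨Set.range fun h : GL (Fin 2) Af =>
    Nm.mkQ (⟨RR GA (h, 1) f, hmem (h, 1)⟩ : W.toSubmodule), ?_, ?_⟩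
  · rintro _ ⟨h, rfl⟩
    have h1 : Harm Valued.v pI (W.toRepresentation.comp atI) f' :=
      ⟨fun g hg => Subtype.ext (hharm.iw g hg), fun z => Subtype.ext (hharm.sc z),
        Subtype.ext hharm.al, Subtype.ext hharm.sum⟩
    have h2 : Harm Valued.v pI (W.toRepresentation.comp atI) (W.toRepresentation (h, 1) f') :=
      harm_map (ρ := W.toRepresentation.comp atI) (σ := W.toRepresentation.comp atI)
        (W.toRepresentation (h, 1)) (fun g x => Subtype.ext (RR_comm h g x.1)) h1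
    exact harm_map (σ := π.ρ.comp atI) Nm.mkQ (fun g x => rfl) h2
  · refine Submodule.eq_top_iff'.2 fun x => ?_
    obtain ⟨w, rfl⟩ := Submodule.mkQ_surjective Nm x
    set S := Submodule.span ℂ {z : π.V | ∃ x ∈ Set.range (fun h : GL (Fin 2) Af =>
      Nm.mkQ (⟨RR GA (h, 1) f, hmem (h, 1)⟩ : W.toSubmodule)), ∃ g : GL (Fin 2) Ki,
        z = π.ρ (atI g) x} with hS
    have h1 : W.toSubmodule ≤ (S.comap Nm.mkQ).map W.toSubmodule.subtype := by
      refine Submodule.span_le.2 ?_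
      rintro _ ⟨g, rfl⟩
      refine ⟨⟨RR GA g f, hmem g⟩, ?_, rfl⟩
      change Nm.mkQ (⟨RR GA g f, hmem g⟩ : W.toSubmodule) ∈ S
      refine Submodule.subset_span ⟨_, ⟨g.1, rfl⟩, g.2, ?_⟩
      change Nm.mkQ (⟨RR GA g f, hmem g⟩ : W.toSubmodule) = Nm.mkQ (W.toRepresentation (atI g.2)
        (⟨RR GA (g.1, 1) f, hmem (g.1, 1)⟩ : W.toSubmodule))
      congr 1
      exact Subtype.ext (RR_split g f)
    obtain ⟨w', hw', hw''⟩ := h1 w.2
    have : w' = w := Subtype.ext hw''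
    rw [← this]
    exact hw'

end Pool.Agent.T3h64.LL
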